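import Pool.Agent.U125.PS.Sums

/-!
An increasing sequence of closed sets of measure tending to one, such that no integer combination
of their points is one of countably many prescribed points of infinite order.
-/

set_option autoImplicit false

open MeasureTheory Filter Topology Set
open scoped ENNReal

namespace Pool.Agent.U125.PS

open Pool.Agent.W764.FB
open Pool.Agent.H706R2.Ren (U)

lemma closed_U {K : ℕ} (cen : Fin K → T) (ρ : ℝ) : IsClosed (U cen ρ) := by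
  unfold U
  exact isClosed_iUnion_of_finite fun i => Metric.isClosed_closedBall

lemma exists_real_lt {c : ℝ≥0∞} (hc : 0 < c) : ∃ κ : ℝ, 0 < κ ∧ ENNReal.ofReal κ < c := by
  obtain ⟨d, hd0, hd⟩ := exists_between hc
  have hdt : d ≠ ⊤ := (hd.trans_le le_top).ne
  exact ⟨d.toReal, ENNReal.toReal_pos hd0.ne' hdt, by rwa [ENNReal.ofReal_toReal hdt]⟩

theorem exists_carrier {p q : ℕ} (hp : p.Prime) (hq : 2 ≤ q) (hpq : ¬ p ∣ q) (μ : Measure T)
    [IsProbabilityMeasure μ] (hip : MeasurePreserving (fun x : T => p • x) μ μ)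
    (hiq : MeasurePreserving (fun x : T => q • x) μ μ) (hs : μ ⟂ₘ (volume : Measure T))
    {C : Set T} (hC : C.Countable) (hCf : ∀ t ∈ C, ¬ IsOfFinAddOrder t) :
    ∃ L : ℕ → Set T, Monotone L ∧ (∀ m, IsClosed (L m)) ∧ (∀ᵐ x ∂μ, ∃ m, x ∈ L m) ∧
      (∀ (m k : ℕ) (a : Fin k → ℤ), ∀ t ∈ C, t ∉ lin a (L m)) ∧
      (∀ m, ∀ n ≥ m, ∃ (N : ℕ) (cen : Fin N → T) (ρ : ℝ), 1 ≤ N ∧ 0 < ρ ∧
        ρ * (N : ℝ) ^ n ≤ (1 / 2) ^ n ∧ L m ⊆ U cen ρ) := by
  classical
  have : Countable C := hC.to_subtype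
  let ι := (Σ k : ℕ, (Fin k → ℤ)) × C
  have hcι : Countable ι := inferInstance
  let _ : Encodable ι := Encodable.ofCountable ι
  obtain ⟨δ1, hδ1, hs1⟩ := ENNReal.exists_pos_sum_of_countable' (ε := 1) one_ne_zero ℕ
  obtain ⟨δ2, hδ2, hs2⟩ := ENNReal.exists_pos_sum_of_countable' (ε := 1) one_ne_zero (ℕ × ι)
  have hinj := essInj_of_singular hp hq hpq μ hip hiq hs
  have h1 : ∀ n : ℕ, ∃ W : Set T, IsClosed W ∧ μ Wᶜ ≤ δ1 n ∧
      ∃ (N : ℕ) (cen : Fin N → T) (ρ : ℝ), 1 ≤ N ∧ 0 < ρ ∧ ρ * (N : ℝ) ^ n ≤ (1 / 2) ^ n ∧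
        W ⊆ U cen ρ := by
    intro n
    obtain ⟨κ, hκ0, hκ⟩ := exists_real_lt (hδ1 n)
    obtain ⟨N, cen, ρ, hN, hρ, hρN, hμ⟩ := covering_pow hp.two_le μ hip hinj hκ0
      (show (0 : ℝ) < (1 / 2) ^ n by positivity) n
    refine ⟨U cen ρ, closed_U cen ρ, ?_, N, cen, ρ, hN, hρ, hρN, Subset.rfl⟩
    refine le_trans ?_ hκ.le
    rw [← ENNReal.ofReal_toReal (measure_ne_top μ (U cen ρ)ᶜ)]
    exact ENNReal.ofReal_le_ofReal hμ
  have h2 : ∀ (n : ℕ) (i : ι), ∃ K : Set T, IsClosed K ∧ μ Kᶜ < δ2 (n, i) ∧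
      (i.2 : T) ∉ lin i.1.2 K := fun n i =>
    exists_avoid hp hq hpq μ hip hiq hs i.1.2 (hδ2 (n, i)) (hCf _ i.2.2)
  choose W hWc hWμ hWU using h1
  choose K hKc hKμ hKt using h2
  set M : ℕ → Set T := fun n => W n ∩ ⋂ i : ι, ⋂ _ : Encodable.encode i ≤ n, K n i with hM
  set L : ℕ → Set T := fun m => ⋂ n : ℕ, ⋂ _ : m ≤ n, M n with hL
  have hMc : ∀ n, IsClosed (M n) := fun n =>
    (hWc n).inter (isClosed_iInter fun i => isClosed_iInter fun _ => hKc n i)
  have hLM : ∀ m n, m ≤ n → L m ⊆ M n := fun m n hmn x hx => by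
    have := mem_iInter.1 hx n
    exact mem_iInter.1 this hmn
  refine ⟨L, ?_, ?_, ?_, ?_, ?_⟩
  · intro m m' hmm x hx
    refine mem_iInter.2 fun n => mem_iInter.2 fun hn => ?_
    exact hLM m n (hmm.trans hn) hx
  · exact fun m => isClosed_iInter fun n => isClosed_iInter fun _ => hMc n
  · have hsum : ∑' n, μ (M n)ᶜ ≠ ⊤ := by
      have hle : ∀ n, μ (M n)ᶜ ≤ δ1 n + ∑' i, δ2 (n, i) := by
        intro n
        have hsub : (M n)ᶜ ⊆ (W n)ᶜ ∪ ⋃ i : ι, (K n i)ᶜ := by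
          intro x hx
          by_contra hcon
          rw [mem_union, not_or, mem_compl_iff, not_not, mem_iUnion, not_exists] at hcon
          refine hx ⟨hcon.1, mem_iInter.2 fun i => mem_iInter.2 fun _ => ?_⟩
          have := hcon.2 i
          rwa [mem_compl_iff, not_not] at this
        refine (measure_mono hsub).trans ((measure_union_le _ _).trans ?_)
        refine add_le_add (hWμ n) ((measure_iUnion_le _).trans ?_)
        exact ENNReal.tsum_le_tsum fun i => (hKμ n i).le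
      refine ne_top_of_le_ne_top ?_ (ENNReal.tsum_le_tsum hle)
      rw [ENNReal.tsum_add]
      refine ENNReal.add_ne_top.2 ⟨(hs1.trans ENNReal.one_lt_top).ne, ?_⟩
      rw [← ENNReal.tsum_prod']
      exact (hs2.trans ENNReal.one_lt_top).ne
    filter_upwards [ae_eventually_notMem hsum] with x hx
    obtain ⟨m, hm⟩ := eventually_atTop.1 hx
    refine ⟨m, mem_iInter.2 fun n => mem_iInter.2 fun hn => ?_⟩
    have := hm n hn
    rwa [mem_compl_iff, not_not] at this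
  · intro m k a t ht hmem
    set i : ι := (⟨k, a⟩, ⟨t, ht⟩) with hi
    have hsub : L m ⊆ K (max m (Encodable.encode i)) i := by
      intro x hx
      have h3 := (hLM m _ (le_max_left m (Encodable.encode i)) hx).2
      have h4 := mem_iInter.1 h3 i
      exact mem_iInter.1 h4 (le_max_right _ _)
    exact hKt (max m (Encodable.encode i)) i (lin_mono a hsub hmem)
  · intro m n hn
    obtain ⟨N, cen, ρ, h2, h3, h4, h5⟩ := hWU n
    exact ⟨N, cen, ρ, h2, h3, h4, fun x hx => h5 (hLM m n hn hx).1⟩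

end Pool.Agent.U125.PS
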