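import Pool.Agent.U125.PS.Carrier

/-!
The integer combinations of points of a set which has very good covers have Hausdorff dimension 0.
-/

set_option autoImplicit false

open MeasureTheory Filter Topology Set
open scoped ENNReal NNReal

namespace Pool.Agent.U125.PS

open Pool.Agent.W764.FB
open Pool.Agent.H706R2.Ren (U)

lemma lin_cover {k : ℕ} (a : Fin k → ℤ) {N : ℕ} (cen : Fin N → T) {ρ : ℝ} (hρ : 0 < ρ)
    {K : Set T} (hK : K ⊆ U cen ρ) :
    lin a K ⊆ ⋃ σ : Fin k → Fin N,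
      Metric.closedBall (∑ i, a i • cen (σ i)) ((∑ i, |(a i : ℝ)| + 1) * ρ) := by
  rintro t ⟨x, hx, rfl⟩
  have hx' : ∀ i, ∃ j, x i ∈ Metric.closedBall (cen j) ρ := by
    intro i
    have := hK (hx i)
    unfold U at this
    exact mem_iUnion.1 this
  choose σ hσ using hx'
  refine mem_iUnion.2 ⟨σ, ?_⟩
  rw [Metric.mem_closedBall, dist_eq_norm, ← Finset.sum_sub_distrib]
  calc ‖∑ i, (a i • x i - a i • cen (σ i))‖ ≤ ∑ i, ‖a i • x i - a i • cen (σ i)‖ :=
        norm_sum_le _ _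
    _ ≤ ∑ i, |(a i : ℝ)| * ρ := by
        refine Finset.sum_le_sum fun i _ => ?_
        rw [← zsmul_sub]
        refine (norm_zsmul_le' _ _).trans ?_
        have := hσ i
        rw [Metric.mem_closedBall, dist_eq_norm] at this
        gcongr
    _ = (∑ i, |(a i : ℝ)|) * ρ := by rw [Finset.sum_mul]
    _ ≤ (∑ i, |(a i : ℝ)| + 1) * ρ := by nlinarith

lemma ediam_closedBall_le (x : T) (r : ℝ) :
    Metric.ediam (Metric.closedBall x r) ≤ ENNReal.ofReal (2 * r) := by
  refine Metric.ediam_le fun y hy z hz => ?_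
  rw [edist_dist]
  refine ENNReal.ofReal_le_ofReal ?_
  have h1 := Metric.mem_closedBall.1 hy
  have h2 := Metric.mem_closedBall.1 hz
  linarith [dist_triangle_right y z x]

/-- the combinations have Hausdorff dimension zero -/
theorem dimH_lin {k : ℕ} (a : Fin k → ℤ) {K : Set T} {m : ℕ}
    (h : ∀ n ≥ m, ∃ (N : ℕ) (cen : Fin N → T) (ρ : ℝ), 1 ≤ N ∧ 0 < ρ ∧
        ρ * (N : ℝ) ^ n ≤ (1 / 2) ^ n ∧ K ⊆ U cen ρ) : dimH (lin a K) = 0 := by
  have h' : ∀ n, ∃ (N : ℕ) (cen : Fin N → T) (ρ : ℝ), m ≤ n → (1 ≤ N ∧ 0 < ρ ∧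
        ρ * (N : ℝ) ^ n ≤ (1 / 2) ^ n ∧ K ⊆ U cen ρ) := by
    intro n
    by_cases hn : m ≤ n
    · obtain ⟨N, cen, ρ, h1⟩ := h n hn
      exact ⟨N, cen, ρ, fun _ => h1⟩
    · exact ⟨0, Fin.elim0, 0, fun h => absurd h hn⟩
  choose N cen ρ hall using h'
  set A : ℝ := ∑ i, |(a i : ℝ)| + 1 with hA
  have hA0 : 0 < A := by positivity
  have hρle : ∀ n, m ≤ n → ρ n ≤ (1 / 2) ^ n := by
    intro n hn
    obtain ⟨h1, h2, h3, -⟩ := hall n hn
    have h4 : (1 : ℝ) ≤ (N n : ℝ) ^ n := one_le_pow₀ (by exact_mod_cast h1)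
    nlinarith
  refine le_antisymm ?_ bot_le
  refine le_of_forall_gt_imp_ge_of_dense fun e he => ?_
  by_cases het : e = ⊤
  · rw [het]; exact le_top
  lift e to ℝ≥0 using het
  have he' : (0 : ℝ) < e := by exact_mod_cast he
  refine dimH_le_of_hausdorffMeasure_ne_top ?_
  have hr : Tendsto (fun n : ℕ => ENNReal.ofReal (2 * (A * (1 / 2) ^ n))) atTop (𝓝 0) := by
    rw [← ENNReal.ofReal_zero]
    refine ENNReal.tendsto_ofReal ?_
    have h1 : Tendsto (fun n : ℕ => ((1 : ℝ) / 2) ^ n) atTop (𝓝 0) :=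
      tendsto_pow_atTop_nhds_zero_of_lt_one (by norm_num) (by norm_num)
    have h2 := (h1.const_mul A).const_mul 2
    simpa using h2
  have key := Measure.hausdorffMeasure_le_liminf_sum (e : ℝ) (lin a K)
    (fun n : ℕ => ENNReal.ofReal (2 * (A * (1 / 2) ^ n))) hr
    (fun n (σ : Fin k → Fin (N n)) =>
      Metric.closedBall (∑ i, a i • cen n (σ i)) (A * ρ n))
    (by
      filter_upwards [eventually_ge_atTop m] with n hn σ
      refine (ediam_closedBall_le _ _).trans (ENNReal.ofReal_le_ofReal ?_)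
      have := hρle n hn
      gcongr)
    (by
      filter_upwards [eventually_ge_atTop m] with n hn
      obtain ⟨h1, h2, h3, h4⟩ := hall n hn
      exact lin_cover a (cen n) h2 h4)
  obtain ⟨n0, hn0⟩ : ∃ n0 : ℕ, (k : ℝ) / e ≤ n0 := exists_nat_ge _
  have hbd : liminf (fun n => ∑ σ : Fin k → Fin (N n),
      Metric.ediam (Metric.closedBall (∑ i, a i • cen n (σ i)) (A * ρ n)) ^ (e : ℝ)) atTop
      ≤ ENNReal.ofReal ((2 * A) ^ (e : ℝ)) := by
    have h1 : liminf (fun n => ∑ σ : Fin k → Fin (N n),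
      Metric.ediam (Metric.closedBall (∑ i, a i • cen n (σ i)) (A * ρ n)) ^ (e : ℝ)) atTop
      ≤ liminf (fun _ : ℕ => ENNReal.ofReal ((2 * A) ^ (e : ℝ))) atTop := by
      refine liminf_le_liminf ?_
      filter_upwards [eventually_ge_atTop m, eventually_ge_atTop n0] with n hn hn'
      obtain ⟨h1, h2, h3, h4⟩ := hall n hn
      have hN1 : (1 : ℝ) ≤ N n := by exact_mod_cast h1
      calc ∑ σ : Fin k → Fin (N n),
            Metric.ediam (Metric.closedBall (∑ i, a i • cen n (σ i)) (A * ρ n)) ^ (e : ℝ)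
          ≤ ∑ σ : Fin k → Fin (N n), ENNReal.ofReal ((2 * (A * ρ n)) ^ (e : ℝ)) := by
            refine Finset.sum_le_sum fun σ _ => ?_
            rw [← ENNReal.ofReal_rpow_of_nonneg (by positivity) e.coe_nonneg]
            exact ENNReal.rpow_le_rpow (ediam_closedBall_le _ _) e.coe_nonneg
        _ = ENNReal.ofReal ((N n : ℝ) ^ k * (2 * (A * ρ n)) ^ (e : ℝ)) := by
            rw [Finset.sum_const, Finset.card_univ, Fintype.card_fun, Fintype.card_fin,
              Fintype.card_fin, nsmul_eq_mul, ENNReal.ofReal_mul (p := (N n : ℝ) ^ k)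
              (by positivity), ← Nat.cast_pow, ENNReal.ofReal_natCast]
        _ ≤ ENNReal.ofReal ((2 * A) ^ (e : ℝ)) := by
            refine ENNReal.ofReal_le_ofReal ?_
            have h5 : (N n : ℝ) ^ k ≤ ((N n : ℝ) ^ n) ^ (e : ℝ) := by
              rw [← Real.rpow_natCast, ← Real.rpow_natCast, ← Real.rpow_mul (by positivity)]
              refine Real.rpow_le_rpow_of_exponent_le hN1 ?_
              have h6 : (n0 : ℝ) ≤ n := by exact_mod_cast hn'
              have h7 := hn0.trans h6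
              rwa [div_le_iff₀ he'] at h7
            have h8 : ((N n : ℝ) ^ n * ρ n) ^ (e : ℝ) ≤ 1 := by
              refine Real.rpow_le_one (by positivity) ?_ e.coe_nonneg
              have h9 : ((1 : ℝ) / 2) ^ n ≤ 1 := pow_le_one₀ (by norm_num) (by norm_num)
              linarith [mul_comm (ρ n) ((N n : ℝ) ^ n)]
            calc (N n : ℝ) ^ k * (2 * (A * ρ n)) ^ (e : ℝ)
                ≤ ((N n : ℝ) ^ n) ^ (e : ℝ) * (2 * (A * ρ n)) ^ (e : ℝ) := by gcongr
              _ = ((N n : ℝ) ^ n * ρ n) ^ (e : ℝ) * (2 * A) ^ (e : ℝ) := by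
                  rw [← Real.mul_rpow (by positivity) (by positivity),
                    ← Real.mul_rpow (by positivity) (by positivity)]
                  congr 1
                  ring
              _ ≤ 1 * (2 * A) ^ (e : ℝ) := by gcongr
              _ = (2 * A) ^ (e : ℝ) := one_mul _
    rwa [liminf_const] at h1
  exact ne_top_of_le_ne_top ENNReal.ofReal_ne_top (key.trans hbd)

end Pool.Agent.U125.PS
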