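import Pool.Agent.U125.PS.Main

/-!
The decomposition of an invariant measure, the nullity of proper Borel subgroups, and the
consequences of `Pool.Agent.U125.PS.single`.
-/

set_option autoImplicit false

open MeasureTheory Filter Topology Set
open scoped ENNReal NNReal

namespace Pool.Agent.U125.PS

open Pool.Agent.W764.FB
open Pool.Agent.H847R3.XpXq (not_fin meas_smul sing_inv zero_of_le)

lemma decomp {p : ℕ} (hp : 2 ≤ p) (μ : Measure T) [IsFiniteMeasure μ]
    (h : MeasurePreserving (fun x : T => p • x) μ μ) :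
    ∃ c : ℝ≥0∞, μ = μ.singularPart volume + c • (volume : Measure T) := by
  obtain ⟨hmeas, hsing, hadd⟩ := Measure.haveLebesgueDecomposition_spec μ (volume : Measure T)
  have hs := sing_inv (by omega : p ≠ 0) h
  set s := μ.singularPart volume with hsdef
  set ρ := (volume : Measure T).withDensity (μ.rnDeriv volume) with hρ
  have hρle : ρ ≤ μ := by
    rw [hadd]
    exact Measure.le_add_left le_rfl
  have hsle : s ≤ μ := by
    rw [hadd]
    exact Measure.le_add_right le_rfl
  have : IsFiniteMeasure ρ := isFiniteMeasure_of_le μ hρle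
  have : IsFiniteMeasure s := isFiniteMeasure_of_le μ hsle
  have hρinv : MeasurePreserving (fun x : T => p • x) ρ ρ := by
    refine ⟨meas_smul p, Measure.ext fun B hB => ?_⟩
    rw [Measure.map_apply (meas_smul p) hB]
    have hB' : MeasurableSet ((fun x : T => p • x) ⁻¹' B) := meas_smul p hB
    have e1 : μ ((fun x : T => p • x) ⁻¹' B) = μ B := h.measure_preimage hB.nullMeasurableSet
    have e2 : s ((fun x : T => p • x) ⁻¹' B) = s B := hs.measure_preimage hB.nullMeasurableSet
    have e3 : μ B = s B + ρ B := by conv_lhs => rw [hadd, Measure.add_apply]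
    have e4 : μ ((fun x : T => p • x) ⁻¹' B) =
        s ((fun x : T => p • x) ⁻¹' B) + ρ ((fun x : T => p • x) ⁻¹' B) := by
      conv_lhs => rw [hadd, Measure.add_apply]
    rw [e1, e2, e3] at e4
    exact (((ENNReal.add_right_inj (measure_ne_top s B)).1 e4).symm)
  obtain ⟨c, hc⟩ := (AddCircle.ergodic_nsmul (T := 1) (by omega : 1 < p)).eq_smul_of_absolutelyContinuous
    hρinv (withDensity_absolutelyContinuous _ _)
  exact ⟨c, by rw [← hc]; exact hadd⟩

/-- a proper Borel subgroup of the circle is null -/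
lemma vol_subgroup (H : AddSubgroup T) (hm : MeasurableSet (H : Set T)) (hne : H ≠ ⊤) :
    (volume : Measure T) (H : Set T) = 0 := by
  by_contra hcon
  have h1 := Measure.sub_mem_nhds_zero_of_addHaar_pos (volume : Measure T) (H : Set T) hm
    (pos_iff_ne_zero.2 hcon)
  have h2 : (H : Set T) ∈ 𝓝 (0 : T) := by
    refine Filter.mem_of_superset h1 ?_
    rintro x ⟨y, hy, z, hz, rfl⟩
    exact H.sub_mem hy hz
  have h3 := H.isOpen_of_mem_nhds h2
  have h4 := H.isClosed_of_isOpen h3
  have h5 : (H : Set T) = univ := IsClopen.eq_univ ⟨h4, h3⟩ ⟨0, H.zero_mem⟩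
  exact hne (SetLike.coe_injective (by rw [h5]; rfl))

/-- **Countably many invariant measures.** -/
theorem family {p q : ℕ} (hp : p.Prime) (hq : 2 ≤ q) (hpq : ¬ p ∣ q) (μ : ℕ → Measure T)
    (hprob : ∀ j, IsProbabilityMeasure (μ j))
    (hinv : ∀ j, MeasurePreserving (fun x : T => p • x) (μ j) (μ j) ∧
      MeasurePreserving (fun x : T => q • x) (μ j) (μ j))
    {C : Set ℝ} (hC : C.Countable) :
    ∃ V : Submodule ℚ ℝ, (1 : ℝ) ∈ V ∧ IsSigmaCompact (V : Set ℝ) ∧ dimH (V : Set ℝ) = 0 ∧
      (∀ x ∈ C, x ∈ V → ∃ r : ℚ, x = r) ∧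
      ∀ j, ∃ c : ℝ≥0∞, (μ j ⟂ₘ volume → c = 0) ∧ ∀ B : Set T, MeasurableSet B →
        (∀ r ∈ V, ((r : ℝ) : T) ∉ B) → μ j B = c * volume B := by
  obtain ⟨ν, hν, hνp, hνq, hνs, hν'⟩ := exists_average
    (fun j => (μ j).singularPart volume)
    (fun j => sing_inv hp.ne_zero (hinv j).1) (fun j => sing_inv (by omega) (hinv j).2)
    (fun j => Measure.mutuallySingular_singularPart _ _)
  obtain ⟨V, h1, hσ, hdim, hCV, hfull⟩ := single hp hq hpq ν hνp hνq hνs hC
  refine ⟨V, h1, hσ, hdim, hCV, fun j => ?_⟩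
  obtain ⟨c, hc⟩ := decomp hp.two_le (μ j) (hinv j).1
  refine ⟨c, fun hs => ?_, fun B hB hBV => ?_⟩
  · refine zero_of_le ?_ hs
    rw [hc]
    exact Measure.le_add_left le_rfl
  · rw [hc, Measure.add_apply, Measure.smul_apply, smul_eq_mul]
    have hsub : B ⊆ ((fun r : ℝ => (r : T)) '' V)ᶜ := by
      rintro x hx ⟨r, hr, rfl⟩
      exact hBV r hr hx
    have hνB : ν B = 0 := measure_mono_null hsub hfull
    obtain ⟨M, hM, hle⟩ := hν' j
    have h0 : (μ j).singularPart volume B = 0 := by
      refine le_antisymm ((hle B).trans ?_) bot_le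
      rw [Measure.smul_apply, hνB, smul_zero]
    rw [h0, zero_add]

/-- **Integer combinations of dependent exceptional variables.** -/
theorem coupled {p q : ℕ} (hp : p.Prime) (hq : 2 ≤ q) (hpq : ¬ p ∣ q) {k : ℕ}
    (μ : Fin k → Measure T) (hprob : ∀ i, IsProbabilityMeasure (μ i))
    (hinv : ∀ j, MeasurePreserving (fun x : T => p • x) (μ j) (μ j) ∧
      MeasurePreserving (fun x : T => q • x) (μ j) (μ j))
    (hs : ∀ i, μ i ⟂ₘ (volume : Measure T)) (a : Fin k → ℤ) {ε : ℝ≥0∞} (hε : 0 < ε) :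
    ∃ F : Set T, F.Finite ∧ (∀ t ∈ F, IsOfFinAddOrder t) ∧
      ∀ (Ω : Type) [MeasurableSpace Ω] (P : Measure Ω) (X : Fin k → Ω → T),
        (∀ i, Measurable (X i)) → (∀ i, P.map (X i) = μ i) →
        ∀ t ∉ F, P {ω | ∑ i, a i • X i ω = t} < ε := by
  obtain ⟨ν, hν, hνp, hνq, hνs, hν'⟩ := exists_average μ
    (fun j => (hinv j).1) (fun j => (hinv j).2) hs
  choose M hMt hM using hν'
  set S : ℝ≥0∞ := ∑ i, M i + 1 with hS
  have hSt : S ≠ ⊤ := ENNReal.add_ne_top.2
    ⟨(ENNReal.sum_lt_top.2 fun i _ => lt_of_le_of_ne le_top (hMt i)).ne, ENNReal.one_ne_top⟩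
  have hS0 : S ≠ 0 := by rw [hS]; positivity
  have hc : 0 < ε / S := ENNReal.div_pos hε.ne' hSt
  obtain ⟨hfin, htor⟩ := bad_finite hp hq hpq ν hνp hνq hνs a hc
  refine ⟨bad ν a (ε / S), hfin, htor, ?_⟩
  intro Ω _ P X hX hPX t ht
  have ht' : ∃ K : Set T, IsClosed K ∧ ν Kᶜ < ε / S ∧ t ∉ lin a K := by
    by_contra hcon
    push Not at hcon
    exact ht hcon
  obtain ⟨K, hK, hKν, htK⟩ := ht'
  have hsub : {ω | ∑ i, a i • X i ω = t} ⊆ ⋃ i, (X i) ⁻¹' Kᶜ := by
    intro ω hω
    by_contra hcon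
    rw [mem_iUnion, not_exists] at hcon
    refine htK ⟨fun i => X i ω, fun i => ?_, hω⟩
    have := hcon i
    rwa [mem_preimage, mem_compl_iff, not_not] at this
  calc P {ω | ∑ i, a i • X i ω = t} ≤ P (⋃ i, (X i) ⁻¹' Kᶜ) := measure_mono hsub
    _ ≤ ∑ i, P ((X i) ⁻¹' Kᶜ) := measure_iUnion_fintype_le _ _
    _ = ∑ i, μ i Kᶜ := by
        refine Finset.sum_congr rfl fun i _ => ?_
        rw [← hPX i, Measure.map_apply (hX i) hK.measurableSet.compl]
    _ ≤ ∑ i, M i * ν Kᶜ := by
        refine Finset.sum_le_sum fun i _ => ?_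
        exact hM i Kᶜ
    _ = (∑ i, M i) * ν Kᶜ := by rw [Finset.sum_mul]
    _ ≤ S * ν Kᶜ := by
        gcongr
        exact le_self_add
    _ < ε := by
        rw [mul_comm]
        exact (ENNReal.lt_div_iff_mul_lt (Or.inl hS0) (Or.inl hSt)).1 hKν

/-- the conjecture for `p, q` -/
theorem equiv {p q : ℕ} (hp : p.Prime) (hq : 2 ≤ q) (hpq : ¬ p ∣ q) :
    (∀ μ : Measure T, IsProbabilityMeasure μ → MeasurePreserving (fun x : T => p • x) μ μ →
        MeasurePreserving (fun x : T => q • x) μ μ → (∀ t, μ {t} = 0) → μ = volume) ↔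
      ∀ μ : Measure T, IsProbabilityMeasure μ → MeasurePreserving (fun x : T => p • x) μ μ →
        MeasurePreserving (fun x : T => q • x) μ μ → (∀ t, μ {t} = 0) →
        ∀ H : AddSubgroup T, MeasurableSet (H : Set T) → H ≠ ⊤ → μ (H : Set T) = 0 := by
  constructor
  · intro h μ hμ hip hiq ha H hm hne
    rw [h μ hμ hip hiq ha]
    exact vol_subgroup H hm hne
  · intro h μ hμ hip hiq ha
    obtain ⟨c, hc⟩ := decomp hp.two_le μ hip
    set s := μ.singularPart volume with hs
    by_cases h0 : s = 0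
    · rw [h0, zero_add] at hc
      have h1 : μ univ = 1 := measure_univ
      rw [hc, Measure.smul_apply, measure_univ, smul_eq_mul, mul_one] at h1
      rw [hc, h1, one_smul]
    · exfalso
      have hle : s ≤ μ := by
        conv_rhs => rw [hc]
        exact Measure.le_add_right le_rfl
      have : IsFiniteMeasure s := isFiniteMeasure_of_le μ hle
      have hsu : s univ ≠ 0 := fun h => h0 (Measure.measure_univ_eq_zero.1 h)
      have hsp := sing_inv hp.ne_zero hip
      have hsq := sing_inv (by omega : q ≠ 0) hiq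
      set ν := (s univ)⁻¹ • s with hν
      have hνprob : IsProbabilityMeasure ν :=
        ⟨by rw [hν, Measure.smul_apply, smul_eq_mul, ENNReal.inv_mul_cancel hsu (measure_ne_top _ _)]⟩
      have hνp : MeasurePreserving (fun x : T => p • x) ν ν :=
        ⟨meas_smul p, by rw [hν, Measure.map_smul, hsp.map_eq]⟩
      have hνq : MeasurePreserving (fun x : T => q • x) ν ν :=
        ⟨meas_smul q, by rw [hν, Measure.map_smul, hsq.map_eq]⟩
      have hνs : ν ⟂ₘ (volume : Measure T) :=
        (Measure.mutuallySingular_singularPart μ volume).smul _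
      have hνa : ∀ t, ν {t} = 0 := by
        intro t
        rw [hν, Measure.smul_apply, smul_eq_mul]
        have : s {t} = 0 := le_antisymm ((hle {t}).trans (ha t).le) bot_le
        rw [this, mul_zero]
      obtain ⟨V, h1, hσ, hdim, -, hfull⟩ := single hp hq hpq ν hνp hνq hνs (countable_empty (α := ℝ))
      set H : AddSubgroup T := V.toAddSubgroup.map (QuotientAddGroup.mk' (AddSubgroup.zmultiples (1 : ℝ))) with hH
      have hHset : (H : Set T) = (fun r : ℝ => (r : T)) '' V := rfl
      have hm : MeasurableSet (H : Set T) := by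
        rw [hHset]
        exact meas_sigma (hσ.image (AddCircle.continuous_mk' 1))
      have hvol : volume (H : Set T) = 0 := by
        rw [hHset]
        exact vol_image V h1 hσ (vol_of_dimH hdim)
      have hne : H ≠ ⊤ := by
        intro htop
        rw [htop, AddSubgroup.coe_top, measure_univ] at hvol
        exact one_ne_zero hvol
      have h2 := h ν hνprob hνp hνq hνa H hm hne
      have h3 : ν (H : Set T)ᶜ = 0 := by rw [hHset]; exact hfull
      have h4 : ν univ ≤ 0 := by
        rw [← union_compl_self (H : Set T)]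
        exact (measure_union_le _ _).trans (by rw [h2, h3, add_zero])
      rw [measure_univ] at h4
      exact absurd h4 (by norm_num)

end Pool.Agent.U125.PS
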