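import Pool.Agent.W764.FB.Cover
import Pool.Agent.H847R3.XpXqF

/-!
A measure invariant under `x ↦ p x` and `x ↦ q x`, `p` a prime which does not divide `q`, which is
singular to Lebesgue measure: `x ↦ p x` is injective on a set of full measure (no ergodicity).
This is Host's argument in a form which needs no ergodic decomposition.
-/

set_option autoImplicit false

open MeasureTheory Filter Topology Set
open scoped ENNReal

namespace Pool.Agent.U125.PS

open Pool.Agent.W764.FB

/-- the injective case -/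
lemma essInj_of_density {p : ℕ} (μ : Measure T) [IsProbabilityMeasure μ]
    {ψ : T → ℝ≥0∞} (hψm : Measurable ψ) (hψ1 : ∀ x, ψ x ≤ 1)
    (hψ : ∀ g : T → ℝ≥0∞, Measurable g → ∫⁻ x, fs p 1 (fun y => ψ y * g y) x ∂μ = ∫⁻ x, g x ∂μ)
    (h0 : μ {x | ψ x < 1} = 0) : EssInj p μ := by
  set A : Set T := {x | ψ x = 1} with hA
  have hAm : MeasurableSet A := measurableSet_eq_fun hψm measurable_const
  have hAc : μ Aᶜ = 0 := by
    have : Aᶜ = {x | ψ x < 1} := by
      ext x
      simp only [hA, mem_compl_iff, mem_ofPred_eq]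
      exact ⟨fun h => lt_of_le_of_ne (hψ1 x) h, fun h => h.ne⟩
    rw [this, h0]
  have hk : ∀ k, 1 ≤ k → k < p → μ {x | x + hh p 1 k ∈ A} = 0 := by
    intro k hk1 hkp
    have h1 := hψ (A.indicator 1) (measurable_one.indicator hAm)
    rw [lintegral_indicator_one hAm] at h1
    have hA1 : μ A = 1 := by
      have := prob_compl_eq_zero_iff hAm (μ := μ)
      exact this.1 hAc
    have h2 : ∫⁻ x, (A.indicator (1 : T → ℝ≥0∞) x + A.indicator 1 (x + hh p 1 k)) ∂μ ≤ μ A := by
      rw [← h1]
      refine lintegral_mono fun x => ?_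
      have h3 : ∀ y, ψ y * A.indicator (1 : T → ℝ≥0∞) y = A.indicator 1 y := by
        intro y
        by_cases hy : y ∈ A
        · rw [indicator_of_mem hy]
          have : ψ y = 1 := hy
          rw [this, one_mul]
        · rw [indicator_of_notMem hy, mul_zero]
      unfold fs
      simp_rw [h3]
      have h4 : ({0, k} : Finset ℕ) ⊆ Finset.range (p ^ 1) := by
        intro j hj
        rw [Finset.mem_insert, Finset.mem_singleton] at hj
        rw [pow_one, Finset.mem_range]
        omega
      refine le_trans (le_of_eq ?_) (Finset.sum_le_sum_of_subset h4)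
      rw [Finset.sum_pair (by omega), hh_zero, add_zero]
    rw [lintegral_add_left (measurable_one.indicator hAm), lintegral_indicator_one hAm, hA1] at h2
    have h5 : ∫⁻ x, A.indicator (1 : T → ℝ≥0∞) (x + hh p 1 k) ∂μ = 0 := by
      have h6 : (1 : ℝ≥0∞) + ∫⁻ x, A.indicator (1 : T → ℝ≥0∞) (x + hh p 1 k) ∂μ ≤ 1 + 0 := by
        rw [add_zero]; exact h2
      have := (ENNReal.add_le_add_iff_left (by simp)).1 h6
      exact le_antisymm this zero_le
    have h7 : (fun x => A.indicator (1 : T → ℝ≥0∞) (x + hh p 1 k)) =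
        {x | x + hh p 1 k ∈ A}.indicator 1 := by
      ext x
      simp only [indicator, mem_ofPred_eq, Pi.one_apply]
    have hmk : MeasurableSet {x | x + hh p 1 k ∈ A} := measurable_add_const _ hAm
    rw [h7] at h5
    exact (lintegral_indicator_one hmk).symm.trans h5
  set B : Set T := A ∩ ⋂ k ∈ Finset.Ico 1 p, {x | x + hh p 1 k ∈ A}ᶜ with hB
  refine ⟨B, ?_, ?_, ?_⟩
  · exact hAm.inter (Finset.measurableSet_biInter _ fun k _ => (measurable_add_const _ hAm).compl)
  · rw [hB, compl_inter, compl_iInter₂]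
    simp only [compl_compl]
    refine measure_union_null hAc ?_
    refine (measure_biUnion_null_iff (Finset.Ico 1 p).countable_toSet).2 fun k hk' => ?_
    rw [Finset.coe_Ico, mem_Ico] at hk'
    exact hk k hk'.1 hk'.2
  · intro x hx k hk1 hkp hxk
    have h1 := hx.2
    rw [mem_iInter₂] at h1
    exact h1 k (Finset.mem_Ico.2 ⟨hk1, hkp⟩) hxk.1

/-- averages along `q ^ i` -/
lemma integral_avg {q : ℕ} (μ : Measure T) [IsProbabilityMeasure μ]
    (hiq : MeasurePreserving (fun x : T => q • x) μ μ) (f : C(T, ℝ)) {N : ℕ} (hN : 1 ≤ N) :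
    ∫ x, (N : ℝ)⁻¹ * ∑ i ∈ Finset.range N, f ((q ^ i) • x) ∂μ = ∫ x, f x ∂μ := by
  have hi : ∀ i ∈ Finset.range N, Integrable (fun x : T => f ((q ^ i) • x)) μ := fun i _ =>
    Pool.Agent.H847R3.XpXq.integrable_of_cont (f.continuous.comp (continuous_nsmul _)) μ
  rw [integral_const_mul, integral_finsetSum _ hi]
  have h1 : ∀ i ∈ Finset.range N, ∫ x, f ((q ^ i) • x) ∂μ = ∫ x, f x ∂μ := by
    intro i _
    have hmp := Pool.Agent.H706R2.Ren.mp_pow q μ hiq i
    have h2 : ∫ x, f ((q ^ i) • x) ∂μ = ∫ x, f x ∂(μ.map (fun x : T => (q ^ i) • x)) := by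
      rw [integral_map hmp.measurable.aemeasurable]
      exact f.continuous.aestronglyMeasurable
    rw [h2, hmp.map_eq]
  rw [Finset.sum_congr rfl h1, Finset.sum_const, Finset.card_range, nsmul_eq_mul]
  have : (N : ℝ) ≠ 0 := by exact_mod_cast (by omega : N ≠ 0)
  field_simp

end Pool.Agent.U125.PS
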