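import Pool.Agent.U125.PS.Inj

/-!
Where the conditional measures on the fibres of `x ↦ p x` are not point masses, a measure invariant
under `x ↦ p x` and `x ↦ q x` dominates a multiple of Lebesgue measure.
-/

set_option autoImplicit false

open MeasureTheory Filter Topology Set
open scoped ENNReal

namespace Pool.Agent.U125.PS

open Pool.Agent.W764.FB

lemma es_zero (q N : ℕ) (x : T) : es q 0 N x = N := by
  unfold es
  simp

lemma set_bound {q : ℕ} (μ : Measure T) [IsProbabilityMeasure μ]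
    (hiq : MeasurePreserving (fun x : T => q • x) μ μ) {F : Set T}
    (f : C(T, ℝ)) (hf : ∀ x, 0 ≤ f x) {M : Finset ℤ} {cc : ℤ → ℂ} {ε : ℝ}
    (happ : ∀ x, ‖((f x : ℝ) : ℂ) - ∑ m ∈ M, cc m * fourier m x‖ ≤ ε) {N : ℕ} (hN : 1 ≤ N)
    {s : ℝ} (hs : 0 < s)
    (hm : ∀ m ∈ M, m ≠ 0 → ∫ x in F, ‖((N : ℂ))⁻¹ * es q m N x‖ ^ 2 ∂μ ≤ s ^ 2) :
    (∫ x, f x) * μ.real F - 2 * ε - (∑ m ∈ M, ‖cc m‖) * s ≤ ∫ x, f x ∂μ := by
  have hNC : (N : ℂ) ≠ 0 := by exact_mod_cast (by omega : N ≠ 0)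
  have hNR : (0 : ℝ) < N := by exact_mod_cast (by omega : 0 < N)
  have hε : 0 ≤ ε := (norm_nonneg _).trans (happ 0)
  set Af : T → ℝ := fun x => (N : ℝ)⁻¹ * ∑ i ∈ Finset.range N, f ((q ^ i) • x) with hAf
  have hAfc : Continuous Af := by
    refine continuous_const.mul (continuous_finsetSum _ fun i _ => f.continuous.comp
      (continuous_nsmul _))
  have hAf0 : ∀ x, 0 ≤ Af x := fun x =>
    mul_nonneg (by positivity) (Finset.sum_nonneg fun i _ => hf _)
  have hAfi : Integrable Af μ := Pool.Agent.H847R3.XpXq.integrable_of_cont hAfc μ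
  have h1 : ∫ x in F, Af x ∂μ ≤ ∫ x, f x ∂μ := by
    rw [← integral_avg μ hiq f hN]
    exact setIntegral_le_integral hAfi (Eventually.of_forall hAf0)
  -- the trigonometric polynomial
  set P : T → ℂ := fun x => ∑ m ∈ M, cc m * ((N : ℂ)⁻¹ * es q m N x) with hP
  have h2 : ∀ x, ‖((Af x : ℝ) : ℂ) - P x‖ ≤ ε := by
    intro x
    have e : ((Af x : ℝ) : ℂ) - P x = (N : ℂ)⁻¹ * ∑ i ∈ Finset.range N,
        (((f ((q ^ i) • x) : ℝ) : ℂ) - ∑ m ∈ M, cc m * fourier m ((q ^ i) • x)) := by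
      rw [hP, hAf]
      simp only
      rw [Finset.sum_sub_distrib, mul_sub]
      congr 1
      · push_cast; rfl
      · rw [Finset.sum_comm, Finset.mul_sum]
        refine Finset.sum_congr rfl fun m _ => ?_
        unfold es
        rw [← Finset.mul_sum]
        ring
    rw [e, norm_mul, norm_inv, Complex.norm_natCast]
    have h3 : ‖∑ i ∈ Finset.range N, (((f ((q ^ i) • x) : ℝ) : ℂ) -
        ∑ m ∈ M, cc m * fourier m ((q ^ i) • x))‖ ≤ N * ε := by
      refine (norm_sum_le _ _).trans ?_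
      refine (Finset.sum_le_sum fun i _ => happ _).trans ?_
      rw [Finset.sum_const, Finset.card_range, nsmul_eq_mul]
    calc (N : ℝ)⁻¹ * _ ≤ (N : ℝ)⁻¹ * (N * ε) := by gcongr
      _ = ε := by field_simp
  have hesc : ∀ m, Continuous fun x => ((N : ℂ))⁻¹ * es q m N x := fun m =>
    continuous_const.mul (continuous_es q m N)
  have hesi : ∀ m, Integrable (fun x => ((N : ℂ))⁻¹ * es q m N x) (μ.restrict F) := fun m =>
    (Pool.Agent.H847R3.XpXq.integrable_of_contC (hesc m) μ).restrict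
  have hPc : Continuous P := continuous_finsetSum _ fun m _ => continuous_const.mul (hesc m)
  have hPi : Integrable P (μ.restrict F) :=
    (Pool.Agent.H847R3.XpXq.integrable_of_contC hPc μ).restrict
  have hAfiC : Integrable (fun x => ((Af x : ℝ) : ℂ)) (μ.restrict F) := hAfi.restrict.ofReal
  have hμF : μ.real F ≤ 1 := measureReal_le_one
  have hμF0 : 0 ≤ μ.real F := measureReal_nonneg
  have h3 : ‖((∫ x in F, Af x ∂μ : ℝ) : ℂ) - ∫ x in F, P x ∂μ‖ ≤ ε := by
    rw [← integral_complex_ofReal, ← integral_sub hAfiC hPi]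
    refine (norm_integral_le_of_norm_le_const (Eventually.of_forall h2)).trans ?_
    rw [measureReal_restrict_apply MeasurableSet.univ, univ_inter]
    exact mul_le_of_le_one_right hε hμF
  set I : ℤ → ℂ := fun m => ∫ x in F, ((N : ℂ))⁻¹ * es q m N x ∂μ with hI
  have h4 : ∫ x in F, P x ∂μ = ∑ m ∈ M, cc m * I m := by
    rw [hP]
    simp only
    rw [integral_finsetSum _ fun m _ => (hesi m).const_mul _]
    exact Finset.sum_congr rfl fun m _ => integral_const_mul _ _
  have hI0 : I 0 = ((μ.real F : ℝ) : ℂ) := by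
    rw [hI]
    simp only [es_zero]
    rw [inv_mul_cancel₀ hNC, setIntegral_const]
    simp
  have hIm : ∀ m ∈ M, ‖I m - (if m = 0 then ((μ.real F : ℝ) : ℂ) else 0)‖ ≤ s := by
    intro m hmM
    by_cases h0 : m = 0
    · rw [if_pos h0, h0, hI0, sub_self, norm_zero]
      exact hs.le
    · rw [if_neg h0, sub_zero]
      have h5 : ∀ x, ‖((N : ℂ))⁻¹ * es q m N x‖ ≤
          (2 * s)⁻¹ * ‖((N : ℂ))⁻¹ * es q m N x‖ ^ 2 + s / 2 := by
        intro x
        set w := ‖((N : ℂ))⁻¹ * es q m N x‖ with hw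
        have : (2 * s)⁻¹ * w ^ 2 + s / 2 - w = (2 * s)⁻¹ * (w - s) ^ 2 := by
          field_simp
          ring
        have h6 : 0 ≤ (2 * s)⁻¹ * (w - s) ^ 2 := by positivity
        linarith
      have hsqi : Integrable (fun x => ‖((N : ℂ))⁻¹ * es q m N x‖ ^ 2) (μ.restrict F) :=
        (Pool.Agent.H847R3.XpXq.integrable_of_cont ((hesc m).norm.pow 2) μ).restrict
      calc ‖I m‖ ≤ ∫ x in F, ‖((N : ℂ))⁻¹ * es q m N x‖ ∂μ := norm_integral_le_integral_norm _
        _ ≤ ∫ x in F, ((2 * s)⁻¹ * ‖((N : ℂ))⁻¹ * es q m N x‖ ^ 2 + s / 2) ∂μ :=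
            integral_mono (hesi m).norm ((hsqi.const_mul _).add (integrable_const _)) h5
        _ = (2 * s)⁻¹ * ∫ x in F, ‖((N : ℂ))⁻¹ * es q m N x‖ ^ 2 ∂μ + μ.real F * (s / 2) := by
            rw [integral_add (hsqi.const_mul _) (integrable_const _), integral_const_mul,
              setIntegral_const, smul_eq_mul]
        _ ≤ (2 * s)⁻¹ * s ^ 2 + 1 * (s / 2) := by
            have := hm m hmM h0
            gcongr
        _ = s := by field_simp; ring
  set c0 : ℂ := ∑ m ∈ M, cc m * (if m = 0 then 1 else 0) with hc0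
  have h5 : ‖((∫ x, f x : ℝ) : ℂ) - c0‖ ≤ ε := by
    have e1 : ∫ x : T, (∑ m ∈ M, cc m * fourier m x) = c0 := by
      rw [integral_finsetSum _ fun m _ => (integrable_cont volume (fourier m)).const_mul _]
      refine Finset.sum_congr rfl fun m _ => ?_
      rw [integral_const_mul]
      congr 1
      by_cases h0 : m = 0
      · rw [if_pos h0, h0]
        simp
      · rw [if_neg h0]
        exact Pool.Agent.H847R3.XpXq.integral_fourier_zero h0
    have hfi : Integrable (fun x => ((f x : ℝ) : ℂ)) (volume : Measure T) :=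
      (Pool.Agent.H847R3.XpXq.integrable_of_cont f.continuous volume).ofReal
    have hgi : Integrable (fun x : T => ∑ m ∈ M, cc m * fourier m x) volume :=
      integrable_finsetSum _ fun m _ => (integrable_cont volume (fourier m)).const_mul _
    rw [← e1, ← integral_complex_ofReal, ← integral_sub hfi hgi]
    refine (norm_integral_le_of_norm_le_const (Eventually.of_forall happ)).trans ?_
    simp
  have h6 : ‖c0 * ((μ.real F : ℝ) : ℂ) - ∑ m ∈ M, cc m * I m‖ ≤ (∑ m ∈ M, ‖cc m‖) * s := by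
    have e : c0 * ((μ.real F : ℝ) : ℂ) - ∑ m ∈ M, cc m * I m =
        - ∑ m ∈ M, cc m * (I m - (if m = 0 then ((μ.real F : ℝ) : ℂ) else 0)) := by
      rw [hc0, Finset.sum_mul, ← Finset.sum_sub_distrib, ← Finset.sum_neg_distrib]
      refine Finset.sum_congr rfl fun m _ => ?_
      split_ifs <;> ring
    rw [e, norm_neg, Finset.sum_mul]
    refine (norm_sum_le _ _).trans (Finset.sum_le_sum fun m hmM => ?_)
    rw [norm_mul]
    exact mul_le_mul_of_nonneg_left (hIm m hmM) (norm_nonneg _)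
  have h7 : ‖(((∫ x, f x) * μ.real F - ∫ x in F, Af x ∂μ : ℝ) : ℂ)‖ ≤
      2 * ε + (∑ m ∈ M, ‖cc m‖) * s := by
    have e : (((∫ x, f x) * μ.real F - ∫ x in F, Af x ∂μ : ℝ) : ℂ) =
        (((∫ x, f x : ℝ) : ℂ) - c0) * ((μ.real F : ℝ) : ℂ) +
        (c0 * ((μ.real F : ℝ) : ℂ) - ∑ m ∈ M, cc m * I m) -
        (((∫ x in F, Af x ∂μ : ℝ) : ℂ) - ∫ x in F, P x ∂μ) := by
      rw [h4]
      push_cast
      ring
    rw [e]
    have h8 : ‖(((∫ x, f x : ℝ) : ℂ) - c0) * ((μ.real F : ℝ) : ℂ)‖ ≤ ε := by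
      rw [norm_mul, Complex.norm_real, Real.norm_of_nonneg hμF0]
      exact (mul_le_mul h5 hμF hμF0 hε).trans (by rw [mul_one])
    calc _ ≤ ‖(((∫ x, f x : ℝ) : ℂ) - c0) * ((μ.real F : ℝ) : ℂ) +
        (c0 * ((μ.real F : ℝ) : ℂ) - ∑ m ∈ M, cc m * I m)‖ +
        ‖((∫ x in F, Af x ∂μ : ℝ) : ℂ) - ∫ x in F, P x ∂μ‖ := norm_sub_le _ _
      _ ≤ (ε + (∑ m ∈ M, ‖cc m‖) * s) + ε := by
          gcongr
          exact (norm_add_le _ _).trans (add_le_add h8 h6)
      _ = 2 * ε + (∑ m ∈ M, ‖cc m‖) * s := by ring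
  rw [Complex.norm_real, Real.norm_eq_abs] at h7
  have h8 := (abs_le.1 h7).2
  linarith

/-- the density is below one on a set of positive measure: Lebesgue part -/
theorem lebesgue_part {p q : ℕ} (hp : p.Prime) (hq : 2 ≤ q) (hpq : ¬ p ∣ q) (μ : Measure T)
    [IsProbabilityMeasure μ] (hip : MeasurePreserving (fun x : T => p • x) μ μ)
    (hiq : MeasurePreserving (fun x : T => q • x) μ μ)
    {ψ : T → ℝ≥0∞} (hψm : Measurable ψ) (hψ1 : ∀ x, ψ x ≤ 1)
    (hψ : ∀ g : T → ℝ≥0∞, Measurable g → ∫⁻ x, fs p 1 (fun y => ψ y * g y) x ∂μ = ∫⁻ x, g x ∂μ)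
    (h0 : μ {x | ψ x < 1} ≠ 0) :
    ∃ c : ℝ≥0∞, c ≠ 0 ∧ c • (volume : Measure T) ≤ μ := by
  obtain ⟨C, hC1, hC⟩ := Pool.Agent.H706R2.Ren.ord_bound p q hp hq hpq
  -- a set where the weight is bounded away from one
  obtain ⟨u, -, hu, hulim⟩ := exists_seq_strictMono_tendsto' (show (0 : ℝ≥0∞) < 1 by norm_num)
  obtain ⟨j, hj⟩ : ∃ j, μ {x | ψ x ≤ u j} ≠ 0 := by
    by_contra hcon
    push Not at hcon
    apply h0
    refine measure_mono_null ?_ (measure_iUnion_null hcon)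
    intro x hx
    obtain ⟨j, hj⟩ := (hulim.eventually (lt_mem_nhds (show ψ x < 1 from hx))).exists
    exact mem_iUnion.2 ⟨j, hj.le⟩
  set E : Set T := {x | ψ x ≤ u j} with hE
  have hEm : MeasurableSet E := measurableSet_le hψm measurable_const
  have hEpos : 0 < μ.real E := by
    rw [measureReal_def]
    exact ENNReal.toReal_pos hj (measure_ne_top _ _)
  have hiter : ∀ (n : ℕ) (x : T), (fun x : T => p • x)^[n] x = (p ^ n) • x := by
    intro n
    induction n with
    | zero => intro x; simp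
    | succ n ih =>
      intro x
      rw [Function.iterate_succ_apply, ih, pow_succ, mul_smul]
  have hrec := hip.conservative.ae_mem_imp_frequently_image_mem hEm.nullMeasurableSet
  have hae : ∀ᵐ x ∂μ, x ∈ E → ∀ δ : ℝ≥0∞, 0 < δ → ∃ n, phi p ψ n x ≤ δ := by
    filter_upwards [hrec] with x hx hxE δ hδ
    refine phi_eventually p hψ1 (hu j).2 ?_ hδ
    refine (hx hxE).mono fun n hn => ?_
    rw [hiter] at hn
    exact hn
  have hpz : Prime (p : ℤ) := Nat.prime_iff_prime_int.1 hp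
  have hval : ∀ m : ℤ, ∃ (v : ℕ) (m' : ℤ), m ≠ 0 → ¬ (p : ℤ) ∣ m' ∧ m = (p : ℤ) ^ v * m' := by
    intro m
    by_cases hm : m = 0
    · exact ⟨0, 0, fun h => absurd hm h⟩
    · have hfin : FiniteMultiplicity (p : ℤ) m :=
        Int.finiteMultiplicity_iff.2 ⟨by simpa using hp.one_lt.ne', hm⟩
      obtain ⟨c, hc1, hc2⟩ := hfin.exists_eq_pow_mul_and_not_dvd
      exact ⟨_, c, fun _ => ⟨hc2, hc1⟩⟩
  choose vv mm hvm using hval
  refine ⟨ENNReal.ofReal (μ.real E), (ENNReal.ofReal_pos.2 hEpos).ne',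
    Pool.Agent.H847R3.XpXq.measure_le hEpos.le fun f hf => ?_⟩
  by_contra hcon
  push Not at hcon
  set g : ℝ := μ.real E * (∫ x, f x) - ∫ x, f x ∂μ with hg
  have hg0 : 0 < g := by rw [hg]; linarith
  have hfint : 0 ≤ ∫ x : T, f x := integral_nonneg hf
  -- approximation
  obtain ⟨M, cc, happ⟩ := trig_approx
    (⟨fun x => ((f x : ℝ) : ℂ), Complex.continuous_ofReal.comp f.continuous⟩ : C(T, ℂ))
    (ε := g / 8) (by positivity)
  set v : ℕ := M.sup vv with hv
  obtain ⟨N, hNlim, hN1, hN2⟩ := exists_length hp.two_le hC1 v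
  set D : ℝ := 2 * C * p ^ v with hD
  have hD0 : 0 ≤ D := by positivity
  set S : ℝ := ∑ m ∈ M, ‖cc m‖ with hS
  have hS0 : 0 ≤ S := Finset.sum_nonneg fun m _ => norm_nonneg _
  set s : ℝ := g / (8 * (S + 1)) with hs
  have hs0 : 0 < s := by positivity
  set δ : ℝ := s ^ 2 / (D + 1) with hδ
  have hδ0 : 0 < δ := by positivity
  have hδD : δ * D ≤ s ^ 2 := by
    rw [hδ, div_mul_eq_mul_div, div_le_iff₀ (by positivity)]
    nlinarith [sq_nonneg s]
  set F : ℕ → Set T := fun n => {y | phi p ψ n y ≤ ENNReal.ofReal δ} with hF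
  have hFm : ∀ n, MeasurableSet (F n) := fun n =>
    measurableSet_le (measurable_phi p hψm n) measurable_const
  have hFmono : Monotone fun n => E ∩ F n := by
    intro a b hab x hx
    exact ⟨hx.1, (phi_anti p hψ1 x hab).trans hx.2⟩
  have hlim : Tendsto (fun n => μ.real (E ∩ F n)) atTop (𝓝 (μ.real E)) := by
    have h1 : Tendsto (fun n => μ (E ∩ F n)) atTop (𝓝 (μ (⋃ n, E ∩ F n))) :=
      tendsto_measure_iUnion_atTop hFmono
    have h2 : μ (⋃ n, E ∩ F n) = μ E := by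
      refine le_antisymm (measure_mono (iUnion_subset fun n => inter_subset_left)) ?_
      refine measure_mono_ae ?_
      filter_upwards [hae] with x hx hxE
      obtain ⟨n, hn⟩ := hx hxE (ENNReal.ofReal δ) (ENNReal.ofReal_pos.2 hδ0)
      exact mem_iUnion.2 ⟨n, hxE, hn⟩
    rw [h2] at h1
    exact (ENNReal.tendsto_toReal (measure_ne_top μ E)).comp h1
  have hbound : ∀ᶠ n in atTop, (∫ x, f x) * μ.real (E ∩ F n) - 2 * (g / 8) - S * s ≤
      ∫ x, f x ∂μ := by
    filter_upwards [hN2, eventually_ge_atTop v] with n hn hvn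
    have hNn : (0 : ℝ) < N n := by exact_mod_cast hn.1
    have h2 := set_bound (F := F n) μ hiq f hf happ hn.1 hs0 ?_
    · have h8 : μ.real (E ∩ F n) ≤ μ.real (F n) := measureReal_mono inter_subset_right
      have h9 := mul_le_mul_of_nonneg_left h8 hfint
      linarith
    · intro m hmM hm0
      obtain ⟨hm1, hm2⟩ := hvm m hm0
      have hvv : vv m ≤ v := Finset.le_sup hmM
      have hN1' : C * N n ≤ p ^ (n - vv m) :=
        (hN1 n).trans (Nat.pow_le_pow_right hp.pos (by omega))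
      have h1 := small_weight (q := q) hp.pos μ hip hψm hψ n (N n) m
        (distinct_mod hp hq hpq hC hm2 hm1 (hvv.trans hvn) hN1' hC1) hδ0.le
      have e1 : ∀ x, ‖((N n : ℂ))⁻¹ * es q m (N n) x‖ ^ 2 =
          (N n : ℝ)⁻¹ ^ 2 * ‖es q m (N n) x‖ ^ 2 := by
        intro x
        rw [norm_mul, norm_inv, Complex.norm_natCast]
        ring
      simp_rw [e1]
      rw [integral_const_mul]
      calc (N n : ℝ)⁻¹ ^ 2 * ∫ x in F n, ‖es q m (N n) x‖ ^ 2 ∂μ
          ≤ (N n : ℝ)⁻¹ ^ 2 * (δ * ((p : ℝ) ^ n * N n)) :=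
            mul_le_mul_of_nonneg_left h1 (by positivity)
        _ ≤ (N n : ℝ)⁻¹ ^ 2 * (δ * ((D * N n) * N n)) := by
            have := hn.2
            gcongr
        _ = δ * D := by field_simp
        _ ≤ s ^ 2 := hδD
  have hl1 : Tendsto (fun n => (∫ x, f x) * μ.real (E ∩ F n) - 2 * (g / 8) - S * s) atTop
      (𝓝 ((∫ x, f x) * μ.real E - 2 * (g / 8) - S * s)) :=
    ((hlim.const_mul _).sub_const _).sub_const _
  have h1 := le_of_tendsto hl1 hbound
  have h2 : S * s ≤ g / 8 := by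
    rw [hs, ← mul_div_assoc, div_le_div_iff₀ (by positivity) (by norm_num)]
    nlinarith
  have h3 : g = (∫ x, f x) * μ.real E - ∫ x, f x ∂μ := by rw [hg]; ring
  linarith

/-- **Singular invariant measures are essentially injective.** -/
theorem essInj_of_singular {p q : ℕ} (hp : p.Prime) (hq : 2 ≤ q) (hpq : ¬ p ∣ q) (μ : Measure T)
    [IsProbabilityMeasure μ] (hip : MeasurePreserving (fun x : T => p • x) μ μ)
    (hiq : MeasurePreserving (fun x : T => q • x) μ μ) (hs : μ ⟂ₘ (volume : Measure T)) :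
    EssInj p μ := by
  obtain ⟨ψ, hψm, hψ1, hψ⟩ := exists_density hp.pos μ
  by_cases h0 : μ {x | ψ x < 1} = 0
  · exact essInj_of_density μ hψm hψ1 hψ h0
  · obtain ⟨c, hc, hle⟩ := lebesgue_part hp hq hpq μ hip hiq hψm hψ1 hψ h0
    exact absurd (Pool.Agent.H847R3.XpXq.zero_of_le hle hs) hc

end Pool.Agent.U125.PS
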