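import Pool.Agent.U125.PS.Space
import Pool.Agent.H847R3.XpXqF

/-!
Exceptional measures are carried by `ℚ`-subspaces of dimension zero.
-/

set_option autoImplicit false

open MeasureTheory Filter Topology Set
open scoped ENNReal NNReal

namespace Pool.Agent.U125.PS

open Pool.Agent.W764.FB
open Pool.Agent.H706R2.Ren (U)
open Pool.Agent.H847R3.XpXq (not_fin meas_smul sing_inv)

/-- one exceptional measure -/
theorem single {p q : ℕ} (hp : p.Prime) (hq : 2 ≤ q) (hpq : ¬ p ∣ q) (μ : Measure T)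
    [IsProbabilityMeasure μ] (hip : MeasurePreserving (fun x : T => p • x) μ μ)
    (hiq : MeasurePreserving (fun x : T => q • x) μ μ) (hs : μ ⟂ₘ (volume : Measure T))
    {C : Set ℝ} (hC : C.Countable) :
    ∃ V : Submodule ℚ ℝ, (1 : ℝ) ∈ V ∧ IsSigmaCompact (V : Set ℝ) ∧ dimH (V : Set ℝ) = 0 ∧
      (∀ x ∈ C, x ∈ V → ∃ r : ℚ, x = r) ∧ μ ((fun r : ℝ => (r : T)) '' V)ᶜ = 0 := by
  set C' : Set T := ⋃ n : ℕ, (fun r : ℝ => ((((n + 1 : ℕ) : ℝ) * r : ℝ) : T)) ''
    {r | r ∈ C ∧ Irrational r} with hC'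
  have hC'c : C'.Countable := countable_iUnion fun n => (hC.mono fun r hr => hr.1).image _
  have hC'f : ∀ t ∈ C', ¬ IsOfFinAddOrder t := by
    intro t ht
    obtain ⟨n, r, ⟨-, hr⟩, rfl⟩ := mem_iUnion.1 ht
    refine not_fin ?_
    exact hr.natCast_mul (by omega)
  obtain ⟨L, hL, hLc, hLμ, hLt, hLU⟩ := exists_carrier hp hq hpq μ hip hiq hs hC'c hC'f
  have hdim : dimH (space hL : Set ℝ) = 0 :=
    dimH_space hL (dimH_hull fun m k a => dimH_lin a (hLU m))
  refine ⟨space hL, one_mem_space hL, sigma_space hL hLc, hdim, ?_, ?_⟩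
  · intro x hx hxV
    by_contra hcon
    have hirr : Irrational x := by
      rintro ⟨r, hr⟩
      exact hcon ⟨r, hr.symm⟩
    obtain ⟨n, hn, m, k, a, hmem⟩ := (mem_space hL).1 hxV
    obtain ⟨n', rfl⟩ : ∃ n', n = n' + 1 := ⟨n - 1, by omega⟩
    exact hLt m k a _ (mem_iUnion.2 ⟨n', x, ⟨hx, hirr⟩, rfl⟩) hmem
  · rw [← mem_ae_iff]
    filter_upwards [hLμ] with x hx
    obtain ⟨m, hm⟩ := hx
    obtain ⟨r, rfl⟩ := QuotientAddGroup.mk_surjective x
    refine ⟨r, ⟨1, le_refl _, ?_⟩, rfl⟩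
    have h1 : (((1 : ℕ) : ℝ) * r : ℝ) = r := by norm_num
    rw [h1]
    exact hull_self hm

lemma vol_singleton (t : T) : (volume : Measure T) {t} = 0 := by
  rw [← Metric.closedBall_zero, AddCircle.volume_closedBall]
  simp

/-- countably many exceptional measures are dominated by one -/
lemma exists_average {p q : ℕ} {ι : Type*} [Countable ι]
    (s : ι → Measure T)
    [hfin : ∀ i, IsFiniteMeasure (s i)]
    (hip : ∀ i, MeasurePreserving (fun x : T => p • x) (s i) (s i))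
    (hiq : ∀ i, MeasurePreserving (fun x : T => q • x) (s i) (s i))
    (hs : ∀ i, s i ⟂ₘ (volume : Measure T)) :
    ∃ ν : Measure T, IsProbabilityMeasure ν ∧ MeasurePreserving (fun x : T => p • x) ν ν ∧
      MeasurePreserving (fun x : T => q • x) ν ν ∧ ν ⟂ₘ (volume : Measure T) ∧
      ∀ i, ∃ M : ℝ≥0∞, M ≠ ⊤ ∧ s i ≤ M • ν := by
  obtain ⟨δ, hδ0, hδ⟩ := ENNReal.exists_pos_sum_of_countable' (ε := 1) one_ne_zero ι
  set w : ι → ℝ≥0∞ := fun i => δ i / (s i univ + 1) with hw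
  have hden0 : ∀ i, s i univ + 1 ≠ 0 := fun i => by positivity
  have hdent : ∀ i, s i univ + 1 ≠ ⊤ := fun i =>
    ENNReal.add_ne_top.2 ⟨measure_ne_top _ _, ENNReal.one_ne_top⟩
  have hδt : ∀ i, δ i ≠ ⊤ := fun i =>
    ne_top_of_le_ne_top ENNReal.one_ne_top ((ENNReal.le_tsum i).trans hδ.le)
  have hw0 : ∀ i, w i ≠ 0 := fun i => (ENNReal.div_pos (hδ0 i).ne' (hdent i)).ne'
  have hwt : ∀ i, w i ≠ ⊤ := fun i => ENNReal.div_ne_top (hδt i) (hden0 i)
  set κ : Measure T := Measure.sum (fun i => w i • s i) + Measure.dirac 0 with hκ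
  have hκ1 : κ univ ≤ 2 := by
    rw [hκ, Measure.add_apply, Measure.sum_apply _ MeasurableSet.univ, measure_univ,
      ← one_add_one_eq_two]
    refine add_le_add ((ENNReal.tsum_le_tsum fun i => ?_).trans hδ.le) le_rfl
    rw [Measure.smul_apply, smul_eq_mul, hw]
    show δ i / (s i univ + 1) * s i univ ≤ δ i
    calc δ i / (s i univ + 1) * s i univ ≤ δ i / (s i univ + 1) * (s i univ + 1) := by
          gcongr
          exact le_self_add
      _ = δ i := ENNReal.div_mul_cancel (hden0 i) (hdent i)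
  have hκ0 : κ univ ≠ 0 := by
    rw [hκ, Measure.add_apply]
    have : Measure.dirac (0 : T) univ = 1 := measure_univ
    rw [this]
    positivity
  have hκt : κ univ ≠ ⊤ := ne_top_of_le_ne_top ENNReal.ofNat_ne_top hκ1
  have hMP : ∀ n : ℕ, (∀ i, MeasurePreserving (fun x : T => n • x) (s i) (s i)) →
      MeasurePreserving (fun x : T => n • x) ((κ univ)⁻¹ • κ) ((κ univ)⁻¹ • κ) := by
    intro n hn
    refine ⟨meas_smul n, ?_⟩
    rw [Measure.map_smul, hκ, Measure.map_add _ _ (meas_smul n),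
      Measure.map_sum (meas_smul n).aemeasurable, Measure.map_dirac' (meas_smul n)]
    simp only [Measure.map_smul, (hn _).map_eq, smul_zero]
  refine ⟨(κ univ)⁻¹ • κ, ⟨?_⟩, hMP p hip, hMP q hiq, ?_, ?_⟩
  · rw [Measure.smul_apply, smul_eq_mul, ENNReal.inv_mul_cancel hκ0 hκt]
  · refine Measure.MutuallySingular.smul _ ?_
    rw [hκ]
    refine Measure.MutuallySingular.add_left ?_ ?_
    · exact Measure.MutuallySingular.sum_left.2 fun i => (hs i).smul _
    · refine ⟨{0}ᶜ, (measurableSet_singleton _).compl, ?_, ?_⟩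
      · rw [Measure.dirac_apply' _ (measurableSet_singleton _).compl]
        simp
      · rw [compl_compl]
        exact vol_singleton 0
  · intro i
    refine ⟨(w i)⁻¹ * κ univ, ENNReal.mul_ne_top (ENNReal.inv_ne_top.2 (hw0 i)) hκt, ?_⟩
    have h1 : w i • s i ≤ κ := by
      rw [hκ]
      exact (Measure.le_sum (fun i => w i • s i) i).trans (Measure.le_add_right le_rfl)
    have h2 : s i = (w i)⁻¹ • (w i • s i) := by
      rw [smul_smul, ENNReal.inv_mul_cancel (hw0 i) (hwt i), one_smul]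
    have h3 : ((w i)⁻¹ * κ univ) • (κ univ)⁻¹ • κ = (w i)⁻¹ • κ := by
      rw [smul_smul, mul_assoc, ENNReal.mul_inv_cancel hκ0 hκt, mul_one]
    rw [h3]
    intro B
    conv_lhs => rw [h2]
    rw [Measure.smul_apply, Measure.smul_apply ((w i)⁻¹) κ, smul_eq_mul, smul_eq_mul]
    exact mul_le_mul_right (h1 B) _

end Pool.Agent.U125.PS
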