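import Pool.Agent.U125.PS.Dim

/-!
The `ℚ`-subspace of the line generated by an increasing sequence of closed subsets of the circle.
-/

set_option autoImplicit false

open MeasureTheory Filter Topology Set
open scoped ENNReal NNReal

namespace Pool.Agent.U125.PS

open Pool.Agent.W764.FB
open Pool.Agent.H706R2.Ren (U)

/-- all integer combinations of points of the sets `L m` -/
def hull (L : ℕ → Set T) : Set T := {t | ∃ (m k : ℕ) (a : Fin k → ℤ), t ∈ lin a (L m)}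

lemma hull_zero (L : ℕ → Set T) : (0 : T) ∈ hull L :=
  ⟨0, 0, Fin.elim0, Fin.elim0, fun i => i.elim0, by simp⟩

lemma hull_add {L : ℕ → Set T} (hL : Monotone L) {s t : T} (hs : s ∈ hull L) (ht : t ∈ hull L) :
    s + t ∈ hull L := by
  obtain ⟨m, k, a, x, hx, rfl⟩ := hs
  obtain ⟨m', k', a', x', hx', rfl⟩ := ht
  refine ⟨max m m', k + k', Fin.append a a', Fin.append x x', ?_, ?_⟩
  · intro i
    refine Fin.addCases (fun j => ?_) (fun j => ?_) i
    · rw [Fin.append_left]; exact hL (le_max_left _ _) (hx j)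
    · rw [Fin.append_right]; exact hL (le_max_right _ _) (hx' j)
  · rw [Fin.sum_univ_add]
    simp [Fin.append_left, Fin.append_right]

lemma hull_zsmul {L : ℕ → Set T} (n : ℤ) {t : T} (ht : t ∈ hull L) : n • t ∈ hull L := by
  obtain ⟨m, k, a, x, hx, rfl⟩ := ht
  refine ⟨m, k, fun i => n * a i, x, hx, ?_⟩
  rw [Finset.smul_sum]
  exact Finset.sum_congr rfl fun i _ => by rw [mul_smul]

lemma hull_self {L : ℕ → Set T} {m : ℕ} {x : T} (hx : x ∈ L m) : x ∈ hull L :=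
  ⟨m, 1, fun _ => 1, fun _ => x, fun _ => hx, by simp⟩

lemma hull_eq (L : ℕ → Set T) :
    hull L = ⋃ i : ℕ × (Σ k : ℕ, (Fin k → ℤ)), lin i.2.2 (L i.1) := by
  ext t
  constructor
  · rintro ⟨m, k, a, h⟩
    exact mem_iUnion.2 ⟨(m, ⟨k, a⟩), h⟩
  · intro h
    obtain ⟨⟨m, ⟨k, a⟩⟩, h⟩ := mem_iUnion.1 h
    exact ⟨m, k, a, h⟩

lemma dimH_hull {L : ℕ → Set T} (h : ∀ (m k : ℕ) (a : Fin k → ℤ), dimH (lin a (L m)) = 0) :
    dimH (hull L) = 0 := by
  rw [hull_eq, dimH_iUnion]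
  exact le_antisymm (iSup_le fun i => (h i.1 i.2.1 i.2.2).le) bot_le

lemma coe_int_mul (a : ℤ) (r : ℝ) : (((a : ℝ) * r : ℝ) : T) = a • (r : T) := by
  rw [← zsmul_eq_mul]
  exact AddCircle.coe_zsmul (p := 1)

lemma coe_nat_mul (a : ℕ) (r : ℝ) : (((a : ℝ) * r : ℝ) : T) = a • (r : T) := by
  rw [← nsmul_eq_mul]
  exact AddCircle.coe_nsmul (p := 1)

/-- the rational vector space generated by `hull L` -/
def space {L : ℕ → Set T} (hL : Monotone L) : Submodule ℚ ℝ where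
  carrier := {r | ∃ n : ℕ, 1 ≤ n ∧ (((n : ℝ) * r : ℝ) : T) ∈ hull L}
  zero_mem' := ⟨1, le_refl _, by simpa using hull_zero L⟩
  add_mem' := by
    rintro r s ⟨n, hn, hr⟩ ⟨m, hm, hs⟩
    refine ⟨n * m, Nat.mul_pos hn hm, ?_⟩
    have h1 : (((n * m : ℕ) : ℝ) * (r + s) : ℝ) = ((m : ℤ) : ℝ) * (n * r) + ((n : ℤ) : ℝ) * (m * s) := by
      push_cast; ring
    rw [h1, AddCircle.coe_add, coe_int_mul, coe_int_mul]
    exact hull_add hL (hull_zsmul _ hr) (hull_zsmul _ hs)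
  smul_mem' := by
    rintro c r ⟨n, hn, hr⟩
    refine ⟨n * c.den, Nat.mul_pos hn c.pos, ?_⟩
    have h1 : (((n * c.den : ℕ) : ℝ) * (c • r) : ℝ) = (c.num : ℝ) * (n * r) := by
      have hd : (c.den : ℝ) ≠ 0 := by exact_mod_cast c.pos.ne'
      rw [Rat.smul_def, Rat.cast_def c]
      push_cast
      field_simp
    rw [h1, coe_int_mul]
    exact hull_zsmul _ hr

lemma mem_space {L : ℕ → Set T} (hL : Monotone L) {r : ℝ} :
    r ∈ space hL ↔ ∃ n : ℕ, 1 ≤ n ∧ (((n : ℝ) * r : ℝ) : T) ∈ hull L := Iff.rfl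

lemma one_mem_space {L : ℕ → Set T} (hL : Monotone L) : (1 : ℝ) ∈ space hL := by
  refine ⟨1, le_refl _, ?_⟩
  have h1 : (((1 : ℕ) : ℝ) * 1 : ℝ) = ((1 : ℝ)) := by norm_num
  rw [h1, AddCircle.coe_period]
  exact hull_zero L

lemma isometry_coe (u : ℝ) : Isometry (fun x : Icc u (u + 1 / 2) => ((x : ℝ) : T)) := by
  refine Isometry.of_dist_eq fun x y => ?_
  have h1 : |(x : ℝ) - y| ≤ |(1 : ℝ)| / 2 := by
    rw [abs_one, abs_le]
    constructor <;> linarith [x.2.1, x.2.2, y.2.1, y.2.2]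
  show dist (((x : ℝ) : T)) ((y : ℝ) : T) = dist x y
  rw [dist_eq_norm, ← AddCircle.coe_sub,
    (AddCircle.norm_coe_eq_abs_iff (p := 1) (one_ne_zero)).2 h1, Subtype.dist_eq, Real.dist_eq]

lemma dimH_preimage_coe {S : Set T} (hS : dimH S = 0) :
    dimH ((fun r : ℝ => (r : T)) ⁻¹' S) = 0 := by
  have hsub : ((fun r : ℝ => (r : T)) ⁻¹' S) ⊆ ⋃ j : ℤ, Subtype.val ''
      ((fun x : Icc ((j : ℝ) / 2) ((j : ℝ) / 2 + 1 / 2) => ((x : ℝ) : T)) ⁻¹' S) := by
    intro r hr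
    refine mem_iUnion.2 ⟨⌊2 * r⌋, ⟨⟨r, ?_, ?_⟩, hr, rfl⟩⟩
    · linarith [Int.floor_le (2 * r)]
    · linarith [Int.lt_floor_add_one (2 * r)]
  refine le_antisymm ((dimH_mono hsub).trans ?_) bot_le
  rw [dimH_iUnion]
  refine iSup_le fun j => ?_
  rw [isometry_subtype_coe.dimH_image, ← (isometry_coe _).dimH_image]
  exact (dimH_mono (image_preimage_subset _ _)).trans hS.le

lemma space_eq {L : ℕ → Set T} (hL : Monotone L) :
    (space hL : Set ℝ) = ⋃ n : ℕ, (fun s : ℝ => ((n + 1 : ℕ) : ℝ)⁻¹ * s) ''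
      ((fun r : ℝ => (r : T)) ⁻¹' hull L) := by
  ext r
  constructor
  · rintro ⟨n, hn, hr⟩
    obtain ⟨m, rfl⟩ : ∃ m, n = m + 1 := ⟨n - 1, by omega⟩
    refine mem_iUnion.2 ⟨m, ((m + 1 : ℕ) : ℝ) * r, hr, ?_⟩
    have : ((m + 1 : ℕ) : ℝ) ≠ 0 := by positivity
    show ((m + 1 : ℕ) : ℝ)⁻¹ * (((m + 1 : ℕ) : ℝ) * r) = r
    field_simp
  · intro h
    obtain ⟨m, s, hs, rfl⟩ := mem_iUnion.1 h
    refine ⟨m + 1, by omega, ?_⟩
    have : ((m + 1 : ℕ) : ℝ) ≠ 0 := by positivity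
    have h2 : (((m + 1 : ℕ) : ℝ) * ((fun s : ℝ => ((m + 1 : ℕ) : ℝ)⁻¹ * s) s) : ℝ) = s := by
      show ((m + 1 : ℕ) : ℝ) * (((m + 1 : ℕ) : ℝ)⁻¹ * s) = s
      field_simp
    rw [h2]
    exact hs

lemma dimH_space {L : ℕ → Set T} (hL : Monotone L) (h : dimH (hull L) = 0) :
    dimH (space hL : Set ℝ) = 0 := by
  rw [space_eq, dimH_iUnion]
  refine le_antisymm (iSup_le fun n => ?_) bot_le
  have hlip : LipschitzWith (Real.nnabs (((n + 1 : ℕ) : ℝ)⁻¹))
      (fun s : ℝ => ((n + 1 : ℕ) : ℝ)⁻¹ * s) := by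
    refine LipschitzWith.of_dist_le_mul fun x y => ?_
    rw [Real.dist_eq, Real.dist_eq, ← mul_sub, abs_mul]
    rfl
  exact (hlip.dimH_image_le _).trans (dimH_preimage_coe h).le

lemma sigma_space {L : ℕ → Set T} (hL : Monotone L) (hc : ∀ m, IsClosed (L m)) :
    IsSigmaCompact (space hL : Set ℝ) := by
  have h1 : IsSigmaCompact ((fun r : ℝ => (r : T)) ⁻¹' hull L) := by
    rw [hull_eq, preimage_iUnion]
    refine isSigmaCompact_iUnion _ fun i => ?_
    exact isSigmaCompact_univ.of_isClosed_subset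
      ((lin_compact _ (hc _)).isClosed.preimage (AddCircle.continuous_mk' 1)) (subset_univ _)
  rw [space_eq]
  exact isSigmaCompact_iUnion _ fun n => h1.image (continuous_const.mul continuous_id)

lemma meas_sigma {X : Type*} [TopologicalSpace X] [T2Space X] [MeasurableSpace X] [BorelSpace X]
    {S : Set X} (h : IsSigmaCompact S) : MeasurableSet S := by
  obtain ⟨K, hK, rfl⟩ := h
  exact MeasurableSet.iUnion fun n => (hK n).measurableSet

/-- the image of a null space containing 1 in the circle is null -/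
lemma vol_image (V : Submodule ℚ ℝ) (h1 : (1 : ℝ) ∈ V) (hV : IsSigmaCompact (V : Set ℝ))
    (h0 : volume (V : Set ℝ) = 0) : volume ((fun r : ℝ => (r : T)) '' V) = 0 := by
  have hm : MeasurableSet ((fun r : ℝ => (r : T)) '' V) :=
    meas_sigma (hV.image (AddCircle.continuous_mk' 1))
  have hmp := UnitAddCircle.measurePreserving_mk 0
  rw [← hmp.measure_preimage hm.nullMeasurableSet]
  have hsub : ((fun r : ℝ => (r : T)) ⁻¹' ((fun r : ℝ => (r : T)) '' V)) ⊆ V := by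
    rintro r ⟨s, hs, hrs⟩
    have h2 : ((s - r : ℝ) : T) = 0 := by
      rw [AddCircle.coe_sub]
      exact sub_eq_zero.2 hrs
    obtain ⟨j, hj⟩ := (AddCircle.coe_eq_zero_iff 1).1 h2
    have h3 : r = s - ((j : ℚ) • (1 : ℝ)) := by
      rw [Rat.smul_def]
      simp only [zsmul_eq_mul] at hj
      push_cast
      linarith
    rw [h3]
    exact V.sub_mem hs (V.smul_mem _ h1)
  exact measure_mono_null hsub (le_antisymm ((Measure.restrict_le_self _).trans h0.le) bot_le)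

lemma vol_of_dimH {S : Set ℝ} (h : dimH S = 0) : volume S = 0 := by
  rw [← hausdorffMeasure_real]
  have := hausdorffMeasure_of_dimH_lt (s := S) (d := 1) (by rw [h]; norm_num)
  simpa using this

end Pool.Agent.U125.PS
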