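import Pool.Agent.U125.PS.Cov
import Pool.Agent.U125.PS.Leb
import Pool.Agent.H847R3.SuppA

/-!
The integer combinations of points of closed sets of nearly full measure, for a measure invariant
under `x ↦ p x` and `x ↦ q x` for which `x ↦ p x` is essentially injective: outside a finite set of
rational points every point is avoided by these combinations, for a suitable closed set.
-/

set_option autoImplicit false

open MeasureTheory Filter Topology Set
open scoped ENNReal

namespace Pool.Agent.U125.PS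

open Pool.Agent.W764.FB
open Pool.Agent.H706R2.Ren (U)
open Pool.Agent.H847R3.XpXq (Inv finite_of_inv exists_den)

/-- the sums `∑ a i x i` with all `x i` in `K` -/
def lin {k : ℕ} (a : Fin k → ℤ) (K : Set T) : Set T :=
  {t | ∃ x : Fin k → T, (∀ i, x i ∈ K) ∧ ∑ i, a i • x i = t}

lemma lin_mono {k : ℕ} (a : Fin k → ℤ) {K K' : Set T} (h : K ⊆ K') : lin a K ⊆ lin a K' := by
  rintro t ⟨x, hx, rfl⟩
  exact ⟨x, fun i => h (hx i), rfl⟩

lemma lin_compact {k : ℕ} (a : Fin k → ℤ) {K : Set T} (hK : IsClosed K) : IsCompact (lin a K) := by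
  have h1 : IsCompact (Set.pi univ fun _ : Fin k => K) := isCompact_univ_pi fun _ => hK.isCompact
  have h2 : Continuous fun x : Fin k → T => ∑ i, a i • x i :=
    continuous_finsetSum _ fun i _ => (continuous_zsmul (a i)).comp (continuous_apply i)
  have h3 : lin a K = (fun x : Fin k → T => ∑ i, a i • x i) '' (Set.pi univ fun _ : Fin k => K) := by
    ext t
    constructor
    · rintro ⟨x, hx, rfl⟩
      exact ⟨x, fun i _ => hx i, rfl⟩
    · rintro ⟨x, hx, rfl⟩
      exact ⟨x, fun i => hx i (mem_univ _), rfl⟩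
  rw [h3]
  exact h1.image h2

lemma lin_smul {k : ℕ} (a : Fin k → ℤ) {K : Set T} {t : T} (n : ℕ)
    (h : t ∈ lin a ((fun x : T => n • x) ⁻¹' K)) : n • t ∈ lin a K := by
  obtain ⟨x, hx, rfl⟩ := h
  refine ⟨fun i => n • x i, hx, ?_⟩
  rw [Finset.smul_sum]
  refine Finset.sum_congr rfl fun i _ => ?_
  rw [smul_comm]

/-- the points which cannot be avoided -/
def bad (μ : Measure T) {k : ℕ} (a : Fin k → ℤ) (c : ℝ≥0∞) : Set T :=
  {t | ∀ K : Set T, IsClosed K → μ Kᶜ < c → t ∈ lin a K}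

lemma bad_closed (μ : Measure T) {k : ℕ} (a : Fin k → ℤ) (c : ℝ≥0∞) : IsClosed (bad μ a c) := by
  have : bad μ a c = ⋂ K : Set T, ⋂ _ : IsClosed K, ⋂ _ : μ Kᶜ < c, lin a K := by
    ext t
    simp [bad]
  rw [this]
  exact isClosed_iInter fun K => isClosed_iInter fun hK => isClosed_iInter fun _ =>
    (lin_compact a hK).isClosed

lemma bad_smul {μ : Measure T} {k : ℕ} (a : Fin k → ℤ) (c : ℝ≥0∞) {n : ℕ}
    (h : MeasurePreserving (fun x : T => n • x) μ μ) {t : T} (ht : t ∈ bad μ a c) :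
    n • t ∈ bad μ a c := by
  intro K hK hμ
  refine lin_smul a n (ht _ (hK.preimage (continuous_nsmul n)) ?_)
  rw [← preimage_compl, h.measure_preimage hK.measurableSet.compl.nullMeasurableSet]
  exact hμ

lemma norm_zsmul_le' (a : ℤ) (x : T) : ‖a • x‖ ≤ |(a : ℝ)| * ‖x‖ := by
  have := norm_zsmul_le a x
  rw [Int.norm_eq_abs] at this
  exact this

lemma bad_ne {p : ℕ} (hp : 2 ≤ p) (μ : Measure T) [IsProbabilityMeasure μ]
    (hinv : MeasurePreserving (fun x : T => p • x) μ μ) (h : EssInj p μ)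
    {k : ℕ} (a : Fin k → ℤ) {c : ℝ≥0∞} (hc : 0 < c) : bad μ a c ≠ univ := by
  intro hall
  set A : ℝ := ∑ i, |(a i : ℝ)| + 1 with hA
  have hA0 : 0 < A := by positivity
  obtain ⟨κ, hκ0, hκ⟩ : ∃ κ : ℝ, 0 < κ ∧ ENNReal.ofReal κ < c := by
    obtain ⟨d, hd0, hd⟩ := exists_between hc
    have hdt : d ≠ ⊤ := (hd.trans_le le_top).ne
    exact ⟨d.toReal, ENNReal.toReal_pos hd0.ne' hdt, by rwa [ENNReal.ofReal_toReal hdt]⟩
  obtain ⟨K, cen, ρ, hK1, hρ, hρK, hμ⟩ := covering_pow hp μ hinv h hκ0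
    (show (0 : ℝ) < 1 / (4 * A) by positivity) k
  have hUc : IsClosed (U cen ρ) := by
    unfold U
    exact isClosed_iUnion_of_finite fun i => Metric.isClosed_closedBall
  have hμU : μ (U cen ρ)ᶜ < c := by
    refine lt_of_le_of_lt ?_ hκ
    rw [← ENNReal.ofReal_toReal (measure_ne_top μ (U cen ρ)ᶜ)]
    exact ENNReal.ofReal_le_ofReal hμ
  have hcov : (univ : Set T) ⊆ ⋃ σ : Fin k → Fin K,
      Metric.closedBall (∑ i, a i • cen (σ i)) (A * ρ) := by
    intro t _
    have ht : t ∈ bad μ a c := by rw [hall]; trivial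
    obtain ⟨x, hx, rfl⟩ := ht _ hUc hμU
    have hx' : ∀ i, ∃ j, x i ∈ Metric.closedBall (cen j) ρ := by
      intro i
      have := hx i
      unfold U at this
      exact mem_iUnion.1 this
    choose σ hσ using hx'
    refine mem_iUnion.2 ⟨σ, ?_⟩
    rw [Metric.mem_closedBall, dist_eq_norm, ← Finset.sum_sub_distrib]
    calc ‖∑ i, (a i • x i - a i • cen (σ i))‖ ≤ ∑ i, ‖a i • x i - a i • cen (σ i)‖ :=
          norm_sum_le _ _
      _ ≤ ∑ i, |(a i : ℝ)| * ρ := by
          refine Finset.sum_le_sum fun i _ => ?_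
          rw [← zsmul_sub]
          refine (norm_zsmul_le' _ _).trans ?_
          have := hσ i
          rw [Metric.mem_closedBall, dist_eq_norm] at this
          gcongr
      _ = (∑ i, |(a i : ℝ)|) * ρ := by rw [Finset.sum_mul]
      _ ≤ A * ρ := by
          rw [hA]
          nlinarith
  have hvol : (volume : Measure T) univ ≤ ENNReal.ofReal (1 / 2) := by
    calc (volume : Measure T) univ ≤ volume (⋃ σ : Fin k → Fin K,
          Metric.closedBall (∑ i, a i • cen (σ i)) (A * ρ)) := measure_mono hcov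
      _ ≤ ∑ σ : Fin k → Fin K, volume (Metric.closedBall (∑ i, a i • cen (σ i)) (A * ρ)) :=
          measure_iUnion_fintype_le _ _
      _ ≤ ∑ σ : Fin k → Fin K, ENNReal.ofReal (2 * (A * ρ)) := by
          refine Finset.sum_le_sum fun σ _ => ?_
          rw [AddCircle.volume_closedBall]
          exact ENNReal.ofReal_le_ofReal (min_le_right _ _)
      _ = ENNReal.ofReal ((K : ℝ) ^ k * (2 * (A * ρ))) := by
          rw [Finset.sum_const, Finset.card_univ, Fintype.card_fun, Fintype.card_fin,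
            Fintype.card_fin, nsmul_eq_mul, ENNReal.ofReal_mul (p := (K : ℝ) ^ k) (by positivity),
            ← Nat.cast_pow, ENNReal.ofReal_natCast]
      _ ≤ ENNReal.ofReal (1 / 2) := by
          refine ENNReal.ofReal_le_ofReal ?_
          have h1 : (K : ℝ) ^ k * (2 * (A * ρ)) = 2 * A * (ρ * (K : ℝ) ^ k) := by ring
          rw [h1]
          calc 2 * A * (ρ * (K : ℝ) ^ k) ≤ 2 * A * (1 / (4 * A)) := by gcongr
            _ = 1 / 2 := by field_simp; norm_num
  rw [measure_univ] at hvol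
  have h2 : ENNReal.ofReal (1 / 2) < 1 := by
    rw [ENNReal.ofReal_lt_one]; norm_num
  exact absurd hvol (not_le.2 h2)

/-- the logarithms are incommensurable -/
lemma irr_log {p q : ℕ} (hp : p.Prime) (hq : 2 ≤ q) (hpq : ¬ p ∣ q) :
    Irrational (Real.log (p : ℝ) / Real.log (q : ℝ)) := by
  have hlp : 0 < Real.log (p : ℝ) := Real.log_pos (by exact_mod_cast hp.one_lt)
  have hlq : 0 < Real.log (q : ℝ) := Real.log_pos (by exact_mod_cast (by omega : 1 < q))
  rintro ⟨r, hr⟩
  have hrpos : 0 < r := by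
    have : (0 : ℝ) < r := by rw [hr]; positivity
    exact_mod_cast this
  have hden : (0 : ℝ) < r.den := by exact_mod_cast r.pos
  have hnum : ((r.num.toNat : ℕ) : ℝ) = (r.num : ℝ) := by
    have : ((r.num.toNat : ℕ) : ℤ) = r.num := Int.toNat_of_nonneg (Rat.num_pos.2 hrpos).le
    exact_mod_cast this
  have h1 : (r.den : ℝ) * Real.log p = (r.num.toNat : ℕ) * Real.log q := by
    rw [hnum]
    have h2 : (r : ℝ) = (r.num : ℝ) / r.den := Rat.cast_def r
    rw [h2] at hr
    field_simp at hr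
    linarith
  have h2 : ((p ^ r.den : ℕ) : ℝ) = ((q ^ r.num.toNat : ℕ) : ℝ) := by
    push_cast
    rw [← Real.log_injOn_pos.eq_iff (by
      show (0 : ℝ) < _
      have := hp.pos
      positivity) (by
      show (0 : ℝ) < _
      have : 0 < q := by omega
      positivity), Real.log_pow, Real.log_pow]
    exact h1
  have h3 : p ^ r.den = q ^ r.num.toNat := by exact_mod_cast h2
  have h4 : p ∣ q ^ r.num.toNat := by
    rw [← h3]
    exact dvd_pow_self _ r.pos.ne'
  exact hpq (hp.dvd_of_dvd_pow h4)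

/-- **The exceptional points are finitely many and rational.** -/
theorem bad_finite {p q : ℕ} (hp : p.Prime) (hq : 2 ≤ q) (hpq : ¬ p ∣ q) (μ : Measure T)
    [IsProbabilityMeasure μ] (hip : MeasurePreserving (fun x : T => p • x) μ μ)
    (hiq : MeasurePreserving (fun x : T => q • x) μ μ) (hs : μ ⟂ₘ (volume : Measure T))
    {k : ℕ} (a : Fin k → ℤ) {c : ℝ≥0∞} (hc : 0 < c) :
    (bad μ a c).Finite ∧ ∀ t ∈ bad μ a c, IsOfFinAddOrder t := by
  have hinj := essInj_of_singular hp hq hpq μ hip hiq hs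
  have hInv : Inv p q (bad μ a c) := fun t ht => ⟨bad_smul a c hip ht, bad_smul a c hiq ht⟩
  have hfin := finite_of_inv hp.two_le hq (irr_log hp hq hpq) (bad_closed μ a c) hInv
    (bad_ne hp.two_le μ hip hinj a hc)
  refine ⟨hfin, fun t ht => ?_⟩
  obtain ⟨d, hd, hdt⟩ := exists_den (q := q) hp.two_le hfin hInv
  exact isOfFinAddOrder_iff_nsmul_eq_zero.2 ⟨d, by omega, hdt t ht⟩

/-- a closed set of nearly full measure none of whose combinations is `t` -/
lemma exists_avoid {p q : ℕ} (hp : p.Prime) (hq : 2 ≤ q) (hpq : ¬ p ∣ q) (μ : Measure T)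
    [IsProbabilityMeasure μ] (hip : MeasurePreserving (fun x : T => p • x) μ μ)
    (hiq : MeasurePreserving (fun x : T => q • x) μ μ) (hs : μ ⟂ₘ (volume : Measure T))
    {k : ℕ} (a : Fin k → ℤ) {c : ℝ≥0∞} (hc : 0 < c) {t : T} (ht : ¬ IsOfFinAddOrder t) :
    ∃ K : Set T, IsClosed K ∧ μ Kᶜ < c ∧ t ∉ lin a K := by
  by_contra hcon
  push Not at hcon
  exact ht ((bad_finite hp hq hpq μ hip hiq hs a hc).2 t hcon)

end Pool.Agent.U125.PS
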